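import Pool.Agent.MP_187b32_an.Gap.Hilb

/-!
The spectral gap of the linearised collision operator (statement C4).
-/

set_option autoImplicit false

open MeasureTheory Pool.Agent.Boltz Filter Topology
open scoped RealInnerProductSpace ENNReal

noncomputable section

namespace Pool.Agent.MP_187b32_an.Gap

open Coll (sph mu2 mu3 pv pw coll swp ker3 Inc Sym DL L2L Micro sM)

lemma lintegral_sq_eq {X : Type} [MeasurableSpace X] {μ : Measure X} (a : Lp ℝ 2 μ) {f : X → ℝ}
    (ha : a =ᵐ[μ] f) : ∫⁻ x, ENNReal.ofReal (f x ^ 2) ∂μ = ENNReal.ofReal (‖a‖ ^ 2) := by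
  have hf : MemLp f 2 μ := (Lp.memLp a).ae_eq ha
  rw [← real_inner_self_eq_norm_sq, inner_Lp a a ha ha,
    ← ofReal_integral_eq_lintegral_ofReal hf.integrable_sq (ae_of_all _ fun x => sq_nonneg _)]
  simp only [sq]

lemma ker_ge {ε : ℝ} (hε : 0 < ε) {u : E} (hu : ε ≤ ‖u‖) (ω : Sph) (h : ⟪u, (ω : E)⟫ ≠ 0) :
    2 * ε ^ 8 ≤ Coll.ker u ω := by
  have h0 : 0 < ‖u‖ := hε.trans_le hu
  have h1 : ‖u‖ ^ (-(3 / 2) : ℝ) ≤ |⟪u, (ω : E)⟫| ^ (-(3 / 2) : ℝ) :=
    Real.rpow_le_rpow_of_nonpos (abs_pos.2 h) (Coll.abs_inner_le u ω) (by norm_num)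
  have h2 : ‖u‖ ^ (19 / 2 : ℝ) * ‖u‖ ^ (-(3 / 2) : ℝ) = ‖u‖ ^ 8 := by
    rw [← Real.rpow_add h0, ← Real.rpow_natCast]; norm_num
  calc 2 * ε ^ 8 ≤ 2 * ‖u‖ ^ 8 := by gcongr
    _ = 2 * ‖u‖ ^ (19 / 2 : ℝ) * ‖u‖ ^ (-(3 / 2) : ℝ) := by rw [mul_assoc, h2]
    _ ≤ Coll.ker u ω := by unfold Coll.ker; gcongr

/-- The collisional increment of `φ(v) + φ(v_*)`. -/
def FF (φ : E → ℝ) (p : E × E × Sph) : ℝ :=
  φ (pv p.1 p.2.1 p.2.2) + φ (pw p.1 p.2.1 p.2.2) - φ p.1 - φ p.2.1

lemma measurable_FF {φ : E → ℝ} (hφ : Measurable φ) : Measurable (FF φ) := by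
  unfold FF; fun_prop

/-- Pairs with small relative velocity. -/
def near (ε : ℝ) : Set (E × E × Sph) := {p | ‖p.1 - p.2.1‖ < ε}

lemma measurableSet_near (ε : ℝ) : MeasurableSet (near ε) :=
  measurableSet_lt (by fun_prop) measurable_const

lemma near_one {φ : E → ℝ} (hφ : Measurable φ) (ε : ℝ) :
    ∫⁻ p, (near ε).indicator (fun p => ENNReal.ofReal (φ p.1 ^ 2)) p ∂nu ≤
      ENNReal.ofReal Z⁻¹ * volume (Metric.ball (0 : E) ε) *
        ∫⁻ v, ENNReal.ofReal (φ v ^ 2) ∂gam := by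
  have hm : Measurable ((near ε).indicator fun p : E × E × Sph => ENNReal.ofReal (φ p.1 ^ 2)) :=
    Measurable.indicator (by fun_prop) (measurableSet_near ε)
  rw [nu, lintegral_prod _ hm.aemeasurable, ← lintegral_const_mul _ (by fun_prop)]
  refine lintegral_mono fun v => ?_
  have h1 : (fun q : E × Sph => (near ε).indicator
      (fun p : E × E × Sph => ENNReal.ofReal (φ p.1 ^ 2)) (v, q)) =
      (Metric.ball v ε ×ˢ (Set.univ : Set Sph)).indicator fun _ => ENNReal.ofReal (φ v ^ 2) := by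
    funext q
    by_cases hq : ‖v - q.1‖ < ε
    · rw [Set.indicator_of_mem (show (v, q) ∈ near ε from hq), Set.indicator_of_mem]
      exact ⟨by rwa [mem_ball_iff_norm, norm_sub_rev], trivial⟩
    · rw [Set.indicator_of_notMem (show (v, q) ∉ near ε from hq), Set.indicator_of_notMem]
      intro h
      apply hq
      have := h.1
      rwa [mem_ball_iff_norm, norm_sub_rev] at this
  simp only [h1]
  rw [lintegral_indicator_const (measurableSet_ball.prod MeasurableSet.univ), Measure.prod_prod,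
    measure_univ, mul_one, mul_comm]
  gcongr
  refine (gam_le _).trans (le_of_eq ?_)
  rw [Measure.addHaar_ball_center]

lemma near_bound {φ : E → ℝ} (hφ : Measurable φ) (ε : ℝ) :
    ∫⁻ p, (near ε).indicator (fun p => ENNReal.ofReal (FF φ p ^ 2)) p ∂nu ≤
      16 * (ENNReal.ofReal Z⁻¹ * volume (Metric.ball (0 : E) ε) *
        ∫⁻ v, ENNReal.ofReal (φ v ^ 2) ∂gam) := by
  set G : E × E × Sph → ℝ≥0∞ := (near ε).indicator fun p => ENNReal.ofReal (φ p.1 ^ 2) with hG
  have hm : Measurable G := Measurable.indicator (by fun_prop) (measurableSet_near ε)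
  have hms : Measurable fun p => G (swp p) := hm.comp Coll.measurable_swp
  have hmc : Measurable fun p => G (coll p) := hm.comp Coll.measurable_coll
  have hpt : ∀ p, (near ε).indicator (fun p => ENNReal.ofReal (FF φ p ^ 2)) p ≤
      4 * (G p + G (swp p) + G (coll p) + G (swp (coll p))) := by
    intro p
    by_cases hp : p ∈ near ε
    · have h2 : swp p ∈ near ε := by
        change ‖p.2.1 - p.1‖ < ε
        rw [norm_sub_rev]; exact hp
      have h3 : coll p ∈ near ε := by
        change ‖pv p.1 p.2.1 p.2.2 - pw p.1 p.2.1 p.2.2‖ < ε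
        rw [Coll.norm_pv_sub_pw]; exact hp
      have h4 : swp (coll p) ∈ near ε := by
        change ‖pw p.1 p.2.1 p.2.2 - pv p.1 p.2.1 p.2.2‖ < ε
        rw [norm_sub_rev, Coll.norm_pv_sub_pw]; exact hp
      simp only [hG, Set.indicator_of_mem hp, Set.indicator_of_mem h2, Set.indicator_of_mem h3,
        Set.indicator_of_mem h4]
      rw [← ENNReal.ofReal_add (sq_nonneg _) (sq_nonneg _),
        ← ENNReal.ofReal_add (by positivity) (sq_nonneg _),
        ← ENNReal.ofReal_add (by positivity) (sq_nonneg _),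
        show (4 : ℝ≥0∞) = ENNReal.ofReal 4 by simp, ← ENNReal.ofReal_mul (by norm_num)]
      refine ENNReal.ofReal_le_ofReal ?_
      simp only [FF, swp, coll]
      set a := φ (pv p.1 p.2.1 p.2.2)
      set b := φ (pw p.1 p.2.1 p.2.2)
      set c := φ p.1
      set d := φ p.2.1
      nlinarith [sq_nonneg (a - b), sq_nonneg (a + c), sq_nonneg (a + d), sq_nonneg (b + c),
        sq_nonneg (b + d), sq_nonneg (c - d)]
    · rw [Set.indicator_of_notMem hp]; exact zero_le
  have e1 : ∫⁻ p, G (swp p) ∂nu = ∫⁻ p, G p ∂nu := mp_swp.lintegral_comp hm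
  have e2 : ∫⁻ p, G (coll p) ∂nu = ∫⁻ p, G p ∂nu := mp_coll.lintegral_comp hm
  have e3 : ∫⁻ p, G (swp (coll p)) ∂nu = ∫⁻ p, G p ∂nu :=
    (mp_coll.lintegral_comp hms).trans e1
  calc _ ≤ ∫⁻ p, 4 * (G p + G (swp p) + G (coll p) + G (swp (coll p))) ∂nu := lintegral_mono hpt
    _ = 16 * ∫⁻ p, G p ∂nu := by
        have m1 : Measurable fun p => G p + G (swp p) := hm.add hms
        have m2 : Measurable fun p => G p + G (swp p) + G (coll p) := m1.add hmc
        rw [lintegral_const_mul' _ _ (by norm_num), lintegral_add_left m2,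
          lintegral_add_left m1, lintegral_add_left hm, e1, e2, e3]
        ring
    _ ≤ _ := by
        gcongr
        exact near_one hφ ε

lemma far_bound {g : E → ℝ} (hg : Measurable g) {ε : ℝ} (hε : 0 < ε) :
    ENNReal.ofReal (2 * ε ^ 8 * (Z ^ 2 * (4 * Real.pi))) *
      ∫⁻ p, (near ε)ᶜ.indicator
        (fun p => ENNReal.ofReal (FF (fun v => g v / sqM v) p ^ 2)) p ∂nu ≤ DL g := by
  have hs := continuous_sqM.measurable
  have hφ : Measurable fun v => g v / sqM v := by fun_prop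
  have hF := measurable_FF hφ
  have hm : Measurable ((near ε)ᶜ.indicator
      fun p => ENNReal.ofReal (FF (fun v => g v / sqM v) p ^ 2)) :=
    Measurable.indicator (by fun_prop) (measurableSet_near ε).compl
  rw [nu_eq, lintegral_withDensity_eq_lintegral_mul _ measurable_rho hm,
    ← lintegral_const_mul' _ _ ENNReal.ofReal_ne_top, DL]
  refine lintegral_mono fun p => ?_
  by_cases hp : p ∈ (near ε)ᶜ
  · have hZ := Z_pos
    have hpi := Real.pi_pos
    have hI : Inc (Sym g sM) p = sqM p.1 * sqM p.2.1 * FF (fun v => g v / sqM v) p := by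
      have h1 : sqM (pv p.1 p.2.1 p.2.2) * sqM (pw p.1 p.2.1 p.2.2) = sqM p.1 * sqM p.2.1 :=
        Coll.sM_pv_mul p.1 p.2.1 p.2.2
      have h2 : ∀ v w, Sym g sM v w = sqM v * sqM w * (g v / sqM v + g w / sqM w) := by
        intro v w
        have := (sqM_pos v).ne'
        have := (sqM_pos w).ne'
        change g v * sqM w + sqM v * g w = _
        field_simp
      rw [Inc, h2, h2, h1, FF]
      ring
    rw [Pi.mul_apply, Set.indicator_of_mem hp, rho, ← ENNReal.ofReal_mul (by positivity),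
      ← ENNReal.ofReal_mul (by positivity)]
    refine ENNReal.ofReal_le_ofReal ?_
    rw [hI]
    have h3 : 2 * ε ^ 8 * (Z ^ 2 * (4 * Real.pi)) * ((sqM p.1 * sqM p.2.1) ^ 2 /
        (Z ^ 2 * (4 * Real.pi)) * FF (fun v => g v / sqM v) p ^ 2) =
        2 * ε ^ 8 * (sqM p.1 * sqM p.2.1 * FF (fun v => g v / sqM v) p) ^ 2 := by
      field_simp
    rw [h3]
    by_cases h0 : ⟪p.1 - p.2.1, (p.2.2 : E)⟫ = 0
    · have : FF (fun v => g v / sqM v) p = 0 := by
        simp only [FF, pv, pw, h0, zero_smul, sub_zero, add_zero]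
        ring
      rw [this]; simp
    · gcongr
      exact ker_ge hε (not_lt.1 hp) p.2.2 h0
  · rw [Pi.mul_apply, Set.indicator_of_notMem hp]; simp

theorem gap_meas (hC : HermComplete) : ∃ lam : ℝ, 0 < lam ∧ ∀ g : E → ℝ, Measurable g →
    MemLp g 2 volume → Micro g → ENNReal.ofReal lam * L2L g ≤ DL g := by
  obtain ⟨δ, hδ0, hδ⟩ := gap_L2 hC
  have hZ := Z_pos
  have hpi := Real.pi_pos
  obtain ⟨ε, hε, hε1⟩ : ∃ ε : ℝ, 0 < ε ∧ 16 * (Z⁻¹ * (ε ^ 3 * (Real.pi * 4 / 3))) ≤ 2 * δ := by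
    have hc : Tendsto (fun ε : ℝ => 16 * (Z⁻¹ * (ε ^ 3 * (Real.pi * 4 / 3)))) (𝓝[>] 0)
        (𝓝 (16 * (Z⁻¹ * (0 ^ 3 * (Real.pi * 4 / 3))))) :=
      (Continuous.tendsto (by fun_prop) 0).mono_left nhdsWithin_le_nhds
    have h1 := hc.eventually (gt_mem_nhds (a := 2 * δ) (by simpa using hδ0))
    obtain ⟨ε, h2, h3⟩ := (h1.and self_mem_nhdsWithin).exists
    exact ⟨ε, h3, h2.le⟩
  refine ⟨2 * ε ^ 8 * (Z ^ 2 * (4 * Real.pi)) * (2 * δ) * Z⁻¹, by positivity,
    fun g hg hg2 hM => ?_⟩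
  have hs := continuous_sqM.measurable
  set φ : E → ℝ := fun v => g v / sqM v with hφdef
  have hφ : Measurable φ := by fun_prop
  have hgφ : ∀ v, φ v * sqM v = g v := fun v => div_mul_cancel₀ _ (sqM_pos v).ne'
  have hφ2 : MemLp φ 2 gam := by
    rw [memLp_two_iff_integrable_sq hφ.aestronglyMeasurable, integrable_gam]
    simpa only [← mul_pow, hgφ] using hg2.integrable_sq
  set u : HH := hφ2.toLp φ with hu
  have huφ : u =ᵐ[gam] φ := hφ2.coeFn_toLp
  have hint : ∀ {n : ℕ} {ψ : E → ℝ}, ψ ∈ PV n → Integrable fun v => g v * (ψ v * sqM v) := by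
    intro n ψ hψ
    obtain ⟨h, -, hh⟩ := exists_HP_of_PV ψ hψ
    simp only [← hh]
    exact hg2.integrable_mul (h.memLp 2 volume)
  have hperp : u ∈ InvHᗮ := by
    rw [Submodule.mem_orthogonal']
    rintro _ ⟨ψ, hψ, rfl⟩
    obtain ⟨c, d, b, hb⟩ := Inv_repr (show (ψ : E → ℝ) ∈ Inv from hψ)
    rw [inner_Lp _ _ huφ (JJ_coe _ _), integral_gam]
    have h1 : (fun v => φ v * (ψ : E → ℝ) v * sqM v ^ 2) = fun v =>
        c * (g v * sM v) + ∑ j, b j * (g v * (v j * sM v)) + d * (g v * (‖v‖ ^ 2 * sM v)) := by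
      funext v
      rw [hb, ← hgφ v]
      change _ = c * (φ v * sqM v * sqM v) + ∑ j, b j * (φ v * sqM v * (v j * sqM v)) +
        d * (φ v * sqM v * (‖v‖ ^ 2 * sqM v))
      simp only [Fin.sum_univ_three]
      ring
    have i0 : Integrable fun v => g v * sM v := by
      have := hint (const_mem 0 1)
      simp only [one_mul] at this
      exact this
    have i1 : ∀ j, Integrable fun v : E => g v * (v j * sM v) := fun j => hint (coord_mem j)
    have i2 : Integrable fun v : E => g v * (‖v‖ ^ 2 * sM v) := hint normSq_mem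
    have i3 : Integrable fun v : E => ∑ j, b j * (g v * (v j * sM v)) :=
      integrable_finsetSum _ fun j _ => (i1 j).const_mul _
    have i4 : Integrable fun v : E => c * (g v * sM v) + ∑ j, b j * (g v * (v j * sM v)) :=
      (i0.const_mul c).add i3
    rw [h1, integral_add i4 (i2.const_mul d), integral_add (i0.const_mul c) i3,
      integral_finsetSum _ fun j _ => (i1 j).const_mul _]
    simp only [integral_const_mul, hM.1, hM.2.1, hM.2.2]
    simp
  have hA : AA u =ᵐ[nu] FF φ := by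
    have h : ∀ {f : E × E × Sph → E} (hf : MeasurePreserving f nu gam),
        UU hf u =ᵐ[nu] fun p => φ (f p) :=
      fun hf => (UU_coe hf _).trans (hf.quasiMeasurePreserving.ae_eq_comp huφ)
    filter_upwards [h mp_one, h mp_two, h mp_three, h mp_four,
      Lp.coeFn_sub (UU mp_three u + UU mp_four u - UU mp_one u) (UU mp_two u),
      Lp.coeFn_sub (UU mp_three u + UU mp_four u) (UU mp_one u),
      Lp.coeFn_add (UU mp_three u) (UU mp_four u)] with p h1 h2 h3 h4 h5 h6 h7
    change (UU mp_three u + UU mp_four u - UU mp_one u - UU mp_two u : KK) p = _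
    rw [h5, Pi.sub_apply, h6, Pi.sub_apply, h7, Pi.add_apply, h1, h2, h3, h4, FF]
  have hn := lintegral_sq_eq u huφ
  have hall := lintegral_sq_eq (AA u) hA
  have hnear : ∫⁻ p, (near ε).indicator (fun p => ENNReal.ofReal (FF φ p ^ 2)) p ∂nu ≤
      ENNReal.ofReal (2 * δ * ‖u‖ ^ 2) := by
    refine (near_bound hφ ε).trans ?_
    rw [hn, EuclideanSpace.volume_ball_fin_three, ← ENNReal.ofReal_pow hε.le,
      ← ENNReal.ofReal_mul (by positivity), ← ENNReal.ofReal_mul (by positivity),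
      ← ENNReal.ofReal_mul (by positivity), show (16 : ℝ≥0∞) = ENNReal.ofReal 16 by simp,
      ← ENNReal.ofReal_mul (by positivity), ← mul_assoc]
    gcongr
  have hF := measurable_FF hφ
  have hfar : ENNReal.ofReal (2 * δ * ‖u‖ ^ 2) ≤
      ∫⁻ p, (near ε)ᶜ.indicator (fun p => ENNReal.ofReal (FF φ p ^ 2)) p ∂nu := by
    have h1 : ENNReal.ofReal (2 * δ * ‖u‖ ^ 2) + ENNReal.ofReal (2 * δ * ‖u‖ ^ 2) ≤
        ENNReal.ofReal (2 * δ * ‖u‖ ^ 2) +
          ∫⁻ p, (near ε)ᶜ.indicator (fun p => ENNReal.ofReal (FF φ p ^ 2)) p ∂nu := by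
      calc _ = ENNReal.ofReal (4 * δ * ‖u‖ ^ 2) := by
            rw [← ENNReal.ofReal_add (by positivity) (by positivity)]; congr 1; ring
        _ ≤ ENNReal.ofReal (‖AA u‖ ^ 2) := ENNReal.ofReal_le_ofReal (hδ u hperp)
        _ = ∫⁻ p, (near ε).indicator (fun p => ENNReal.ofReal (FF φ p ^ 2)) p ∂nu +
            ∫⁻ p, (near ε)ᶜ.indicator (fun p => ENNReal.ofReal (FF φ p ^ 2)) p ∂nu := by
            rw [← hall, lintegral_indicator (measurableSet_near ε),
              lintegral_indicator (measurableSet_near ε).compl,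
              lintegral_add_compl _ (measurableSet_near ε)]
        _ ≤ _ := by gcongr
    exact (ENNReal.add_le_add_iff_left ENNReal.ofReal_ne_top).1 h1
  have hL : L2L g = ENNReal.ofReal (Z * ‖u‖ ^ 2) := by
    rw [L2L, ← ofReal_integral_eq_lintegral_ofReal hg2.integrable_sq
      (ae_of_all _ fun x => sq_nonneg _), ← real_inner_self_eq_norm_sq, inner_Lp u u huφ huφ,
      integral_gam, ← mul_assoc, mul_inv_cancel₀ hZ.ne', one_mul]
    congr 2; funext v
    rw [← hgφ v]; ring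
  refine le_trans ?_ (far_bound hg hε)
  refine le_trans (le_of_eq ?_) (mul_le_mul_right hfar _)
  rw [hL, ← ENNReal.ofReal_mul (by positivity), ← ENNReal.ofReal_mul (by positivity)]
  congr 1
  field_simp

lemma continuous_of_nice {p : ℕ} {K : ℝ} {g : E → ℝ} (h : Coll.Nice p K g) : Continuous g := by
  rw [continuous_iff_continuousAt]
  intro v
  have h1 : ∀ᶠ w in 𝓝 v, ‖g w - g v‖ ≤ K * ‖w - v‖ := by
    filter_upwards [Metric.closedBall_mem_nhds v one_pos] with w hw
    have h2 := h.2 v (w - v) (mem_closedBall_iff_norm.1 hw)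
    rw [add_sub_cancel] at h2
    refine le_trans ?_ h2
    exact le_mul_of_one_le_left (abs_nonneg _) (one_le_pow₀ (by linarith [norm_nonneg v]))
  rw [ContinuousAt, tendsto_iff_norm_sub_tendsto_zero]
  refine squeeze_zero' (Eventually.of_forall fun _ => norm_nonneg _) h1 ?_
  have : Tendsto (fun w => K * ‖w - v‖) (𝓝 v) (𝓝 (K * ‖v - v‖)) :=
    Continuous.tendsto (by fun_prop) v
  simpa using this

lemma memLp_of_nice {K : ℝ} {g : E → ℝ} (h : Coll.Nice 10 K g) : MemLp g 2 volume := by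
  have hc := continuous_of_nice h
  rw [memLp_two_iff_integrable_sq hc.aestronglyMeasurable]
  have hi : Integrable (fun x : E => (1 + ‖x‖) ^ (-(20 : ℝ))) :=
    integrable_one_add_norm (by simp; norm_num)
  refine (hi.const_mul (K ^ 2)).mono' (hc.pow 2).aestronglyMeasurable (ae_of_all _ fun v => ?_)
  have h0 : 0 < 1 + ‖v‖ := by positivity
  have h1 := pow_le_pow_left₀ (by positivity) (h.1 v) 2
  rw [Real.norm_of_nonneg (sq_nonneg _), Real.rpow_neg h0.le, ← div_eq_mul_inv,
    le_div_iff₀ (by positivity), show (20 : ℝ) = (20 : ℕ) by norm_num, Real.rpow_natCast]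
  rw [mul_pow, sq_abs, ← pow_mul, mul_comm] at h1
  exact h1

/-- The spectral gap, given the completeness of the Hermite functions. -/
theorem c4_of (hC : HermComplete) : Coll.C4Stmt := by
  obtain ⟨lam, h0, h⟩ := gap_meas hC
  exact ⟨lam, h0, fun g K hg hM =>
    h g (continuous_of_nice hg).measurable (memLp_of_nice hg) hM⟩

end Pool.Agent.MP_187b32_an.Gap
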