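import Pool.Agent.MP_187b32_an.Herm.Poly

/-!
Elementary algebra of polynomial functions on velocity space, and two linear algebra lemmas.
-/

set_option autoImplicit false

open MeasureTheory Pool.Agent.Boltz Filter Topology
open scoped RealInnerProductSpace

noncomputable section

namespace Pool.Agent.MP_187b32_an

/-- Polynomial functions of degree less than `n`. -/
def PL : ℕ → Submodule ℝ (E → ℝ)
  | 0 => ⊥
  | n + 1 => PV n

instance (n : ℕ) : FiniteDimensional ℝ (PL n) := by
  cases n with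
  | zero => exact inferInstanceAs (FiniteDimensional ℝ (⊥ : Submodule ℝ (E → ℝ)))
  | succ n => exact inferInstanceAs (FiniteDimensional ℝ (PV n))

lemma PL_le (n : ℕ) : PL n ≤ PV n := by
  cases n with
  | zero => exact bot_le
  | succ n => exact PV_mono (Nat.le_succ n)

lemma const_mem (n : ℕ) (c : ℝ) : (fun _ : E => c) ∈ PV n := by
  have := (PV n).smul_mem c (Filt.base_mem n)
  convert this using 1
  funext v; simp

lemma PV_zero_const {φ : E → ℝ} (h : φ ∈ PV 0) : ∃ c : ℝ, φ = fun _ => c := by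
  obtain ⟨c, rfl⟩ := Filt.mem_zero.1 h
  exact ⟨c, by funext v; simp⟩

lemma mulC_mem {n : ℕ} (j : Fin 3) {φ : E → ℝ} (h : φ ∈ PV n) : mulC j φ ∈ PV (n + 1) :=
  Filt.mul_mem j h

lemma PV_continuous {n : ℕ} : ∀ φ ∈ PV n, Continuous φ := by
  induction n with
  | zero =>
    intro φ h
    obtain ⟨c, rfl⟩ := PV_zero_const h
    exact continuous_const
  | succ n ih =>
    refine Filt.succ_induction ih (fun j φ h => ?_) (fun φ ψ h h' => h.add h')
    have := ih φ h
    change Continuous fun v : E => v j * φ v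
    fun_prop

lemma abs_coord_le (v : E) (j : Fin 3) : |v j| ≤ ‖v‖ := by
  simpa using PiLp.norm_apply_le v j

lemma PV_growth {n : ℕ} : ∀ φ ∈ PV n, ∃ C : ℝ, 0 ≤ C ∧ ∀ v, |φ v| ≤ C * (1 + ‖v‖) ^ n := by
  induction n with
  | zero =>
    intro φ h
    obtain ⟨c, rfl⟩ := PV_zero_const h
    exact ⟨|c|, abs_nonneg _, fun v => by simp⟩
  | succ n ih =>
    refine Filt.succ_induction (fun φ h => ?_) (fun j φ h => ?_) (fun φ ψ h h' => ?_)
    · obtain ⟨C, hC, h⟩ := ih φ h
      refine ⟨C, hC, fun v => (h v).trans ?_⟩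
      gcongr
      · linarith [norm_nonneg v]
      · exact Nat.le_succ n
    · obtain ⟨C, hC, h⟩ := ih φ h
      refine ⟨C, hC, fun v => ?_⟩
      rw [mulC_apply, abs_mul]
      calc |v j| * |φ v| ≤ (1 + ‖v‖) * (C * (1 + ‖v‖) ^ n) := by
            gcongr
            · linarith [abs_coord_le v j]
            · exact h v
        _ = C * (1 + ‖v‖) ^ (n + 1) := by ring
    · obtain ⟨C, hC, h⟩ := h
      obtain ⟨C', hC', h'⟩ := h'
      refine ⟨C + C', add_nonneg hC hC', fun v => ?_⟩
      calc |(φ + ψ) v| ≤ |φ v| + |ψ v| := abs_add_le _ _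
        _ ≤ _ := by linarith [h v, h' v]

lemma eq_sum_ev (v : E) : v = ∑ j, v j • ev j := by
  ext i
  simp [Fin.sum_univ_three]
  fin_cases i <;> simp

lemma lin_apply (l : E →L[ℝ] ℝ) (v : E) : l v = ∑ j, l (ev j) * v j := by
  conv_lhs => rw [eq_sum_ev v]
  simp [mul_comm]

lemma lin_mul_mem {n : ℕ} (l : E →L[ℝ] ℝ) {φ : E → ℝ} (h : φ ∈ PV n) :
    (fun v => l v * φ v) ∈ PV (n + 1) := by
  have : (fun v => l v * φ v) = ∑ j, l (ev j) • mulC j φ := by
    funext v
    rw [lin_apply l v]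
    simp [Finset.sum_mul, mul_assoc]
  rw [this]
  exact Submodule.sum_mem _ fun j _ => Submodule.smul_mem _ _ (mulC_mem j h)

lemma lin_mul_mem_PL {n : ℕ} (l : E →L[ℝ] ℝ) {φ : E → ℝ} (h : φ ∈ PL n) :
    (fun v => l v * φ v) ∈ PL (n + 1) := by
  cases n with
  | zero =>
    have : φ = 0 := (Submodule.mem_bot ℝ).1 h
    subst this
    simp only [Pi.zero_apply, mul_zero]
    exact const_mem 0 0
  | succ n => exact lin_mul_mem l h

lemma comp_affine_mem {n : ℕ} (A : E →L[ℝ] E) (b : E) :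
    ∀ φ ∈ PV n, (fun x => φ (A x + b)) ∈ PV n := by
  induction n with
  | zero =>
    intro φ h
    obtain ⟨c, rfl⟩ := PV_zero_const h
    exact const_mem 0 c
  | succ n ih =>
    refine Filt.succ_induction (fun φ h => PV_mono (Nat.le_succ n) (ih φ h)) (fun j φ h => ?_)
      (fun φ ψ h h' => Submodule.add_mem _ h h')
    have h1 := lin_mul_mem ((EuclideanSpace.proj j : E →L[ℝ] ℝ).comp A) (ih φ h)
    have h2 := (PV (n + 1)).smul_mem (b j) (PV_mono (Nat.le_succ n) (ih φ h))
    convert Submodule.add_mem _ h1 h2 using 1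
    funext x
    simp [add_mul]

lemma diff_mem {n : ℕ} (A : E →L[ℝ] E) (b : E) :
    ∀ φ ∈ PV n, (fun x => φ (A x + b) - φ (A x)) ∈ PL n := by
  induction n with
  | zero =>
    intro φ h
    obtain ⟨c, rfl⟩ := PV_zero_const h
    simp only [sub_self]
    exact Submodule.zero_mem _
  | succ n ih =>
    refine Filt.succ_induction (fun φ h => PL_le n (ih φ h)) (fun j φ h => ?_)
      (fun φ ψ h h' => ?_)
    · have h1 := lin_mul_mem_PL ((EuclideanSpace.proj j : E →L[ℝ] ℝ).comp A) (ih φ h)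
      have h2 := (PV n).smul_mem (b j) (comp_affine_mem A b φ h)
      convert Submodule.add_mem _ h1 h2 using 1
      funext x
      simp
      ring
    · convert Submodule.add_mem _ h h' using 1
      funext x
      simp
      ring

/-- Homogeneity of degree `n`. -/
def Homog (n : ℕ) (P : E → ℝ) : Prop := ∀ (t : ℝ) (x : E), P (t • x) = t ^ n * P x

lemma exists_top {n : ℕ} : ∀ φ ∈ PV n, ∃ P ∈ PV n, Homog n P ∧ φ - P ∈ PL n := by
  induction n with
  | zero =>
    intro φ h
    refine ⟨φ, h, ?_, by simp⟩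
    obtain ⟨c, rfl⟩ := PV_zero_const h
    intro t x; simp
  | succ n ih =>
    refine Filt.succ_induction (fun φ h => ?_) (fun j φ h => ?_) (fun φ ψ h h' => ?_)
    · exact ⟨0, Submodule.zero_mem _, fun t x => by simp, by rw [sub_zero]; exact h⟩
    · obtain ⟨P, hP, hH, hr⟩ := ih φ h
      refine ⟨mulC j P, mulC_mem j hP, fun t x => ?_, ?_⟩
      · simp [hH t x]; ring
      · convert lin_mul_mem_PL (EuclideanSpace.proj j : E →L[ℝ] ℝ) hr using 1
        funext x
        simp
        ring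
    · obtain ⟨P, hP, hH, hr⟩ := h
      obtain ⟨Q, hQ, hH', hr'⟩ := h'
      refine ⟨P + Q, Submodule.add_mem _ hP hQ, fun t x => ?_, ?_⟩
      · simp [hH t x, hH' t x]; ring
      · convert Submodule.add_mem _ hr hr' using 1
        abel

lemma homog_eq_zero {n : ℕ} {f : E → ℝ} (hf : f ∈ PL n) (hH : Homog n f) : f = 0 := by
  cases n with
  | zero => exact (Submodule.mem_bot ℝ).1 hf
  | succ n =>
    obtain ⟨C, hC, h⟩ := PV_growth f hf
    funext x
    by_contra hx
    have hpos : 0 < |f x| := abs_pos.2 hx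
    set K := C * (1 + ‖x‖) ^ n with hK
    have hK0 : 0 ≤ K := by positivity
    set t := K / |f x| + 1 with ht
    have ht1 : 1 ≤ t := by
      have : 0 ≤ K / |f x| := by positivity
      linarith
    have h1 := h (t • x)
    rw [hH t x, abs_mul, abs_of_nonneg (by positivity), norm_smul,
      Real.norm_of_nonneg (by linarith)] at h1
    have h2 : (1 + t * ‖x‖) ^ n ≤ (t * (1 + ‖x‖)) ^ n := by
      gcongr
      nlinarith [norm_nonneg x]
    have h3 : t ^ (n + 1) * |f x| ≤ t ^ n * K := by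
      calc t ^ (n + 1) * |f x| ≤ C * (1 + t * ‖x‖) ^ n := h1
        _ ≤ C * (t * (1 + ‖x‖)) ^ n := by gcongr
        _ = t ^ n * K := by rw [mul_pow, hK]; ring
    have h4 : t * |f x| ≤ K := by
      have htn : 0 < t ^ n := by positivity
      rw [pow_succ, mul_assoc] at h3
      exact le_of_mul_le_mul_left h3 htn
    rw [ht, add_mul, div_mul_cancel₀ _ hpos.ne'] at h4
    linarith

lemma PV_one_repr : ∀ φ ∈ PV 1, ∃ (c : ℝ) (b : Fin 3 → ℝ), ∀ v, φ v = c + ∑ j, b j * v j := by
  refine Filt.succ_induction (fun φ h => ?_) (fun j φ h => ?_) (fun φ ψ h h' => ?_)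
  · obtain ⟨c, rfl⟩ := PV_zero_const h
    exact ⟨c, 0, fun v => by simp⟩
  · obtain ⟨c, rfl⟩ := PV_zero_const h
    refine ⟨0, Pi.single j c, fun v => ?_⟩
    simp [Pi.single_apply, mul_comm]
  · obtain ⟨c, b, h⟩ := h
    obtain ⟨c', b', h'⟩ := h'
    refine ⟨c + c', b + b', fun v => ?_⟩
    simp [h, h', add_mul, Finset.sum_add_distrib]
    ring

lemma coord_mem (j : Fin 3) : (fun v : E => v j) ∈ PV 1 := by
  convert mulC_mem j (const_mem 0 1) using 1
  funext v; simp

lemma normSq_mem : (fun v : E => ‖v‖ ^ 2) ∈ PV 2 := by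
  have : (fun v : E => ‖v‖ ^ 2) = ∑ j, mulC j (fun v : E => v j) := by
    funext v
    rw [EuclideanSpace.real_norm_sq_eq]
    simp [sq]
  rw [this]
  exact Submodule.sum_mem _ fun j _ => mulC_mem j (coord_mem j)

/-- An average of functions from a finite-dimensional space of functions lies in that space. -/
lemma integral_mem {X Θ : Type} [MeasurableSpace Θ] (V : Submodule ℝ (X → ℝ))
    [FiniteDimensional ℝ V] (μ : Measure Θ) (f : Θ → X → ℝ) (hV : ∀ θ, f θ ∈ V)
    (hint : ∀ x, Integrable (fun θ => f θ x) μ) : (fun x => ∫ θ, f θ x ∂μ) ∈ V := by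
  let ε : X → (V →ₗ[ℝ] ℝ) := fun x => (LinearMap.proj x).comp V.subtype
  have hspan : Submodule.span ℝ (Set.range ε) = ⊤ := by
    refine Submodule.span_eq_top_of_ne_zero fun z hz => ?_
    by_contra hcon
    push Not at hcon
    apply hz
    ext x
    exact hcon (ε x) ⟨x, rfl⟩
  have hall : ∀ l : V →ₗ[ℝ] ℝ, Integrable (fun θ => l ⟨f θ, hV θ⟩) μ := by
    intro l
    have hl : l ∈ Submodule.span ℝ (Set.range ε) := by rw [hspan]; trivial
    induction hl using Submodule.span_induction with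
    | mem l hl => obtain ⟨x, rfl⟩ := hl; exact hint x
    | zero => simp
    | add l l' _ _ h h' => exact h.add h'
    | smul c l _ h => exact h.const_mul c
  let b := Module.finBasis ℝ V
  have : (fun x => ∫ θ, f θ x ∂μ) = ∑ i, (∫ θ, b.coord i ⟨f θ, hV θ⟩ ∂μ) • (b i : X → ℝ) := by
    funext x
    have h1 : ∀ θ, f θ x = ∑ i, b.coord i ⟨f θ, hV θ⟩ * (b i : X → ℝ) x := by
      intro θ
      have := congrArg (fun z : V => (z : X → ℝ) x) (b.sum_repr ⟨f θ, hV θ⟩)
      simp only [Submodule.coe_sum, Submodule.coe_smul, Finset.sum_apply, Pi.smul_apply,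
        smul_eq_mul] at this
      exact this.symm
    simp only [h1, Finset.sum_apply, Pi.smul_apply, smul_eq_mul]
    rw [integral_finsetSum _ fun i _ => (hall _).mul_const _]
    exact Finset.sum_congr rfl fun i _ => integral_mul_const _ _
  rw [this]
  exact Submodule.sum_mem _ fun i _ => V.smul_mem _ (b i).2

/-- A symmetric operator is bounded above by its largest eigenvalue. -/
lemma sym_bound {W H : Type} [AddCommGroup W] [Module ℝ W] [FiniteDimensional ℝ W]
    [NormedAddCommGroup H] [InnerProductSpace ℝ H] (J : W →ₗ[ℝ] H) (hJ : Function.Injective J)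
    (T : W →ₗ[ℝ] W) (hT : ∀ x y, ⟪J (T x), J y⟫ = ⟪J x, J (T y)⟫) (μ0 : ℝ)
    (h : ∀ (μ : ℝ) (x : W), x ≠ 0 → T x = μ • x → μ ≤ μ0) (x : W) :
    ⟪J (T x), J x⟫ ≤ μ0 * ‖J x‖ ^ 2 := by
  let e := LinearEquiv.ofInjective J hJ
  let T' : LinearMap.range J →ₗ[ℝ] LinearMap.range J := e.toLinearMap ∘ₗ T ∘ₗ e.symm.toLinearMap
  have he : ∀ z : W, ((e z : LinearMap.range J) : H) = J z := fun z => rfl
  have hT' : T'.IsSymmetric := by
    intro u v
    obtain ⟨u, rfl⟩ := e.surjective u
    obtain ⟨v, rfl⟩ := e.surjective v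
    simp only [T', LinearMap.comp_apply, LinearEquiv.coe_coe, LinearEquiv.symm_apply_apply]
    exact hT u v
  let b := hT'.eigenvectorBasis rfl
  have hb : ∀ i, hT'.eigenvalues rfl i ≤ μ0 := by
    intro i
    refine h _ (e.symm (b i)) ?_ ?_
    · intro h0
      have : b i = 0 := by simpa using congrArg e h0
      exact b.orthonormal.ne_zero i this
    · apply e.injective
      rw [map_smul, LinearEquiv.apply_symm_apply]
      exact hT'.apply_eigenvectorBasis rfl i
  have h1 : ⟪J (T x), J x⟫ = ⟪T' (e x), e x⟫ := by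
    simp only [T', LinearMap.comp_apply, LinearEquiv.coe_coe, LinearEquiv.symm_apply_apply]
    rfl
  have h2 : ‖J x‖ = ‖e x‖ := rfl
  rw [h1, h2, ← b.sum_inner_mul_inner, ← b.sum_sq_inner_right, Finset.mul_sum]
  refine Finset.sum_le_sum fun i _ => ?_
  rw [hT', hT'.apply_eigenvectorBasis rfl i, inner_smul_right, real_inner_comm]
  have := hb i
  simp only [RCLike.ofReal_real_eq_id, id]
  nlinarith [sq_nonneg ⟪b i, e x⟫]

end Pool.Agent.MP_187b32_an
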