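import Pool.Agent.MP_187b32_an.Gap.Meas

/-!
The spectral gap of the collision form with constant kernel, in the Gaussian `L²` space.
-/

set_option autoImplicit false

open MeasureTheory Pool.Agent.Boltz Filter Topology
open scoped RealInnerProductSpace ENNReal

noncomputable section

namespace Pool.Agent.MP_187b32_an

/-- Completeness of the Hermite functions. -/
def HermComplete : Prop :=
  ∀ f : E → ℝ, MemLp f 2 volume → (∀ n, ∀ h ∈ HP n, ∫ v, f v * h v = 0) → f =ᵐ[volume] 0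

namespace Gap

open Coll (sph mu2 mu3 pv pw coll swp)

/-- One-particle space. -/
abbrev HH : Type := Lp ℝ 2 gam

/-- Collision space. -/
abbrev KK : Type := Lp ℝ 2 nu

/-- Composition with a measure preserving map. -/
def UU {f : E × E × Sph → E} (hf : MeasurePreserving f nu gam) : HH →L[ℝ] KK :=
  (Lp.compMeasurePreservingₗᵢ ℝ f hf).toContinuousLinearMap

lemma UU_coe {f : E × E × Sph → E} (hf : MeasurePreserving f nu gam) (u : HH) :
    UU hf u =ᵐ[nu] fun p => u (f p) := Lp.coeFn_compMeasurePreserving u hf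

lemma norm_UU {f : E × E × Sph → E} (hf : MeasurePreserving f nu gam) (u : HH) :
    ‖UU hf u‖ = ‖u‖ := Lp.norm_compMeasurePreserving u hf

lemma inner_Lp {X : Type} [MeasurableSpace X] {μ : Measure X} (a b : Lp ℝ 2 μ) {f g : X → ℝ}
    (ha : a =ᵐ[μ] f) (hb : b =ᵐ[μ] g) : ⟪a, b⟫ = ∫ x, f x * g x ∂μ := by
  rw [L2.inner_def]
  apply integral_congr_ae
  filter_upwards [ha, hb] with x h1 h2
  rw [h1, h2]; simp [mul_comm]

lemma inner_UU {f g : E × E × Sph → E} (hf : MeasurePreserving f nu gam)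
    (hg : MeasurePreserving g nu gam) (u u' : HH) :
    ⟪UU hf u, UU hg u'⟫ = ∫ p, u (f p) * u' (g p) ∂nu :=
  inner_Lp _ _ (UU_coe hf u) (UU_coe hg u')

lemma s31 (u u' : HH) : ⟪UU mp_three u, UU mp_one u'⟫ = ⟪UU mp_one u, UU mp_three u'⟫ := by
  rw [inner_UU, inner_UU, ← integral_coll]
  simp only [coll, Coll.pv_pv]

lemma s32 (u u' : HH) : ⟪UU mp_three u, UU mp_two u'⟫ = ⟪UU mp_four u, UU mp_one u'⟫ := by
  rw [inner_UU, inner_UU, ← integral_swp]
  simp only [swp, Coll.pv_swap]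

lemma s42 (u u' : HH) : ⟪UU mp_four u, UU mp_two u'⟫ = ⟪UU mp_three u, UU mp_one u'⟫ := by
  rw [inner_UU, inner_UU, ← integral_swp]
  simp only [swp, Coll.pw_swap]

lemma s41 (u u' : HH) : ⟪UU mp_four u, UU mp_one u'⟫ = ⟪UU mp_one u, UU mp_four u'⟫ := by
  rw [real_inner_comm (UU mp_four u'), ← s32 u' u, inner_UU, inner_UU, ← integral_coll]
  simp only [coll, Coll.pw_pw, mul_comm]

lemma s34 (u u' : HH) : ⟪UU mp_three u, UU mp_four u'⟫ = ⟪UU mp_one u, UU mp_two u'⟫ := by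
  rw [inner_UU, inner_UU, ← integral_coll]
  simp only [coll, Coll.pv_pv, Coll.pw_pw]

lemma s12 (u : HH) : 0 ≤ ⟪UU mp_one u, UU mp_two u⟫ := by
  rw [inner_UU, nu, integral_prod_mul (fun v => u v) (fun q : E × Sph => u q.1),
    integral_fun_fst (fun v => u v)]
  simpa using mul_self_nonneg _

/-- The collisional increment as an operator. -/
def AA : HH →L[ℝ] KK := UU mp_three + UU mp_four - UU mp_one - UU mp_two

lemma norm_AA_ge (u : HH) :
    4 * ‖u‖ ^ 2 - 4 * ⟪UU mp_three u + UU mp_four u, UU mp_one u⟫ ≤ ‖AA u‖ ^ 2 := by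
  have h1 : ⟪UU mp_one u, UU mp_one u⟫ = ‖u‖ ^ 2 := by rw [real_inner_self_eq_norm_sq, norm_UU]
  have h2 : ⟪UU mp_two u, UU mp_two u⟫ = ‖u‖ ^ 2 := by rw [real_inner_self_eq_norm_sq, norm_UU]
  have h3 : ⟪UU mp_three u, UU mp_three u⟫ = ‖u‖ ^ 2 := by
    rw [real_inner_self_eq_norm_sq, norm_UU]
  have h4 : ⟪UU mp_four u, UU mp_four u⟫ = ‖u‖ ^ 2 := by rw [real_inner_self_eq_norm_sq, norm_UU]
  have h5 := s32 u u
  have h6 := s42 u u
  have h7 := s34 u u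
  have h8 := s12 u
  rw [← real_inner_self_eq_norm_sq (AA u)]
  simp only [AA, sub_apply, add_apply, inner_add_left, inner_add_right, inner_sub_left,
    inner_sub_right]
  rw [real_inner_comm (UU mp_three u) (UU mp_four u), real_inner_comm (UU mp_three u) (UU mp_one u),
    real_inner_comm (UU mp_four u) (UU mp_one u), real_inner_comm (UU mp_three u) (UU mp_two u),
    real_inner_comm (UU mp_four u) (UU mp_two u), real_inner_comm (UU mp_one u) (UU mp_two u)]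
  linarith

/-- Polynomial functions as elements of the Gaussian `L²` space. -/
def JJ (N : ℕ) : PV N →ₗ[ℝ] HH where
  toFun φ := (memLp_PV φ.2).toLp φ
  map_add' _ _ := MemLp.toLp_add _ _
  map_smul' _ _ := MemLp.toLp_const_smul _ _

lemma JJ_coe (N : ℕ) (φ : PV N) : JJ N φ =ᵐ[gam] φ := (memLp_PV φ.2).coeFn_toLp

lemma JJ_eq {N M : ℕ} (φ : PV N) (ψ : PV M) (h : (φ : E → ℝ) = ψ) : JJ N φ = JJ M ψ := by
  apply Lp.ext
  filter_upwards [JJ_coe N φ, JJ_coe M ψ] with v h1 h2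
  rw [h1, h2, h]

lemma JJ_injective (N : ℕ) : Function.Injective (JJ N) := by
  intro φ ψ h
  apply Subtype.ext
  refine Measure.eq_of_ae_eq (μ := gam) ?_ (PV_continuous _ φ.2) (PV_continuous _ ψ.2)
  filter_upwards [JJ_coe N φ, JJ_coe N ψ] with v h1 h2
  rw [← h1, ← h2, h]

/-- The averaging operator on polynomials of degree at most `N`. -/
def TT (N : ℕ) : PV N →ₗ[ℝ] PV N where
  toFun φ := ⟨Tf φ, Tf_mem φ.2⟩
  map_add' φ ψ := Subtype.ext (Tf_add φ.2 ψ.2)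
  map_smul' c φ := Subtype.ext (Tf_smul c φ)

lemma UU_JJ_coe {f : E × E × Sph → E} (hf : MeasurePreserving f nu gam) (N : ℕ) (φ : PV N) :
    UU hf (JJ N φ) =ᵐ[nu] fun p => (φ : E → ℝ) (f p) :=
  (UU_coe hf _).trans (hf.quasiMeasurePreserving.ae_eq_comp (JJ_coe N φ))

lemma inner_JJ_TT {N : ℕ} (φ : PV N) (u : HH) :
    ⟪JJ N (TT N φ), u⟫ = ⟪UU mp_three (JJ N φ) + UU mp_four (JJ N φ), UU mp_one u⟫ := by
  have h1 : (UU mp_three (JJ N φ) + UU mp_four (JJ N φ) : KK) =ᵐ[nu] fun p =>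
      (φ : E → ℝ) (pv p.1 p.2.1 p.2.2) + (φ : E → ℝ) (pw p.1 p.2.1 p.2.2) := by
    filter_upwards [Lp.coeFn_add (UU mp_three (JJ N φ)) (UU mp_four (JJ N φ)),
      UU_JJ_coe mp_three N φ, UU_JJ_coe mp_four N φ] with p h h3 h4
    rw [h, Pi.add_apply, h3, h4]
  have hint : Integrable (fun p : E × E × Sph =>
      ((φ : E → ℝ) (pv p.1 p.2.1 p.2.2) + (φ : E → ℝ) (pw p.1 p.2.1 p.2.2)) * u p.1) nu := by
    have ha := (Lp.memLp (UU mp_three (JJ N φ) + UU mp_four (JJ N φ) : KK)).ae_eq h1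
    have hb := (Lp.memLp (UU mp_one u)).ae_eq (UU_coe mp_one u)
    exact ha.integrable_mul hb
  rw [inner_Lp _ _ (JJ_coe N _) EventuallyEq.rfl, inner_Lp _ _ h1 (UU_coe mp_one u)]
  rw [nu] at hint ⊢
  rw [integral_prod _ hint]
  congr 1; funext x
  simp only [integral_mul_const]
  rfl

lemma TT_symm {N : ℕ} (φ ψ : PV N) : ⟪JJ N (TT N φ), JJ N ψ⟫ = ⟪JJ N φ, JJ N (TT N ψ)⟫ := by
  rw [real_inner_comm (JJ N (TT N ψ)), inner_JJ_TT, inner_JJ_TT, inner_add_left, inner_add_left,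
    s31, s41, real_inner_comm (UU mp_three (JJ N ψ)), real_inner_comm (UU mp_four (JJ N ψ))]

/-- The collision invariants in the Gaussian `L²` space. -/
def InvH : Submodule ℝ HH := (Inv.comap (PV 2).subtype).map (JJ 2)

instance : FiniteDimensional ℝ InvH := by unfold InvH; infer_instance

lemma mem_InvH {N : ℕ} (φ : PV N) (h : (φ : E → ℝ) ∈ Inv) : JJ N φ ∈ InvH :=
  ⟨⟨φ, Inv_le h⟩, h, JJ_eq _ _ rfl⟩

lemma gap_poly : ∃ δ : ℝ, 0 < δ ∧ ∀ (N : ℕ) (φ : PV (N + 2)), JJ _ φ ∈ InvHᗮ →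
    4 * δ * ‖JJ _ φ‖ ^ 2 ≤ ‖AA (JJ _ φ)‖ ^ 2 := by
  obtain ⟨δ, hδ0, hδ⟩ := eigen_bound
  refine ⟨δ, hδ0, fun N φ hφ => ?_⟩
  set W : Submodule ℝ (PV (N + 2)) := InvHᗮ.comap (JJ _) with hW
  have hinv : ∀ x ∈ W, TT _ x ∈ W := by
    intro x hx
    rw [hW, Submodule.mem_comap, Submodule.mem_orthogonal']
    rintro _ ⟨ψ, hψ, rfl⟩
    have hψ' : (ψ : E → ℝ) ∈ Inv := hψ
    rw [JJ_eq ψ ⟨ψ, PV_mono (Nat.le_add_left 2 N) ψ.2⟩ rfl, TT_symm]
    exact (Submodule.mem_orthogonal' _ _).1 hx _ (mem_InvH _ (Tf_mem_Inv hψ'))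
  have h := sym_bound (W := W) (H := HH) ((JJ (N + 2)).comp W.subtype)
    ((JJ_injective _).comp Subtype.val_injective) ((TT _).restrict hinv)
    (fun x y => TT_symm x.1 y.1) (1 - δ) (fun μ x hx hT => ?_) ⟨φ, hφ⟩
  · have h1 := norm_AA_ge (JJ _ φ)
    rw [← inner_JJ_TT] at h1
    have h2 : ⟪JJ _ (TT _ φ), JJ _ φ⟫ ≤ (1 - δ) * ‖JJ _ φ‖ ^ 2 := h
    linarith
  · refine hδ (N + 2) μ x.1.1 x.1.2 (fun hI => hx ?_) ?_
    · have h0 : JJ _ x.1 = 0 :=
        inner_self_eq_zero.1 ((Submodule.mem_orthogonal' _ _).1 x.2 _ (mem_InvH _ hI))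
      apply Subtype.ext
      exact JJ_injective _ (h0.trans (map_zero _).symm)
    · exact congrArg (fun z : W => (z.1 : E → ℝ)) hT

lemma dense_poly (hC : HermComplete) :
    (⨆ N, LinearMap.range (JJ (N + 2))).topologicalClosure = ⊤ := by
  rw [Submodule.topologicalClosure_eq_top_iff, eq_bot_iff]
  intro u hu
  have hs := continuous_sqM
  have hm : AEStronglyMeasurable (u : E → ℝ) volume :=
    (Lp.aestronglyMeasurable u).mono_ac volume_ac_gam
  have hf : MemLp (fun v => u v * sqM v) 2 volume := by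
    refine (memLp_two_iff_integrable_sq (hm.mul hs.aestronglyMeasurable)).2 ?_
    have := integrable_gam.1 ((memLp_two_iff_integrable_sq (Lp.aestronglyMeasurable u)).1
      (Lp.memLp u))
    simpa only [Pi.mul_apply, mul_pow] using this
  have h0 := hC _ hf fun n h hh => by
    obtain ⟨φ, hφ, hφ'⟩ := exists_PV_of_HP h (HP_mono (Nat.le_add_right n 2) hh)
    have h1 := (Submodule.mem_orthogonal' _ _).1 hu (JJ _ ⟨φ, hφ⟩)
      (Submodule.mem_iSup_of_mem n (LinearMap.mem_range_self _ _))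
    rw [inner_Lp _ _ EventuallyEq.rfl (JJ_coe _ _), integral_gam] at h1
    have h2 := (mul_eq_zero.1 h1).resolve_left (inv_ne_zero Z_pos.ne')
    rw [← h2]
    congr 1; funext v
    rw [hφ']; ring
  rw [Submodule.mem_bot]
  apply Lp.ext
  have h1 : ∀ᵐ v ∂gam, u v * sqM v = 0 := (withDensity_absolutelyContinuous _ _).ae_le h0
  filter_upwards [h1, Lp.coeFn_zero ℝ 2 gam] with v h h'
  rw [h']
  exact (mul_eq_zero.1 h).resolve_right (sqM_pos v).ne'

theorem gap_L2 (hC : HermComplete) :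
    ∃ δ : ℝ, 0 < δ ∧ ∀ u ∈ InvHᗮ, 4 * δ * ‖u‖ ^ 2 ≤ ‖AA u‖ ^ 2 := by
  obtain ⟨δ, hδ0, hδ⟩ := gap_poly
  refine ⟨δ, hδ0, fun u hu => ?_⟩
  set Q := InvHᗮ.starProjection with hQ
  have hcl : IsClosed {u : HH | 4 * δ * ‖Q u‖ ^ 2 ≤ ‖AA (Q u)‖ ^ 2} :=
    isClosed_le (by fun_prop) (by fun_prop)
  have hdir : Directed (· ≤ ·) fun N => LinearMap.range (JJ (N + 2)) := by
    refine Monotone.directed_le fun a b hab => ?_
    rintro _ ⟨φ, rfl⟩
    exact ⟨⟨φ, PV_mono (by omega) φ.2⟩, JJ_eq _ _ rfl⟩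
  have hsub : ((⨆ N, LinearMap.range (JJ (N + 2)) : Submodule ℝ HH) : Set HH) ⊆
      {u : HH | 4 * δ * ‖Q u‖ ^ 2 ≤ ‖AA (Q u)‖ ^ 2} := by
    intro z hz
    obtain ⟨N, φ, rfl⟩ := (Submodule.mem_iSup_of_directed _ hdir).1 hz
    obtain ⟨ψ, -, hψ⟩ : InvH.starProjection (JJ _ φ) ∈ InvH := InvH.starProjection_apply_mem _
    have h1 : Q (JJ _ φ) = JJ _ (φ - ⟨ψ, PV_mono (Nat.le_add_left 2 N) ψ.2⟩) := by
      rw [hQ, Submodule.starProjection_orthogonal_val, map_sub, ← hψ]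
      congr 1
    have h2 : Q (JJ _ φ) ∈ InvHᗮ := InvHᗮ.starProjection_apply_mem _
    rw [Set.mem_ofPred_eq, h1]
    exact hδ N _ (h1 ▸ h2)
  have h1 : u ∈ closure ((⨆ N, LinearMap.range (JJ (N + 2)) : Submodule ℝ HH) : Set HH) := by
    rw [← Submodule.topologicalClosure_coe, dense_poly hC]; trivial
  have h2 := closure_minimal hsub hcl h1
  rwa [Set.mem_ofPred_eq, hQ, Submodule.starProjection_eq_self_iff.2 hu] at h2

end Gap

end Pool.Agent.MP_187b32_an
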