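import Pool.Agent.MP_187b32_an.Gap.Main
import Pool.Agent.MP_187b32_an.Corr.Main
import Pool.Agent.MP_187b32_an.Coll.Schw

/-!
The fields `hyd`, `gap` and `inv` of the collision interface for the concrete operator.
-/

set_option autoImplicit false

open MeasureTheory Pool.Agent.Boltz

noncomputable section

namespace Pool.Agent.MP_187b32_an.Gap

open Coll

theorem hermComplete : HermComplete := fun _ hf h => hermite_complete hf h

/-- C4. -/
theorem c4 : C4Stmt := c4_of hermComplete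

theorem hyd_GsB (f g : SV) : PP (GsB f g) = 0 := by
  rw [PP_eq_zero_iff]
  intro i
  rw [ip_comm]
  have h : ∀ j, ip (GsB f g) (ap j sqMS) = 0 := fun j => by rw [ap_sqMS, ip_GsB_mulV]
  fin_cases i
  exacts [ip_GsB_sqMS f g, h 0, h 1, h 2, ip_GsB_energy f g e4 3 e4_apply]

theorem PP_LS (f : SV) : PP (LS f) = 0 := by rw [LS_eq, map_neg, hyd_GsB, neg_zero]

theorem LS_PP (f : SV) : LS (PP f) = 0 := by
  apply ip_self_eq_zero
  rw [ip_LS_symm, ip_PP, PP_LS, map_zero]

theorem gap_LS : ∃ lam : ℝ, 0 < lam ∧ ∀ f : SV, lam * ip (f - PP f) (f - PP f) ≤ ip (LS f) f := by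
  obtain ⟨lam, h0, h⟩ := c4
  refine ⟨lam / 4, by positivity, fun f => ?_⟩
  set g := f - PP f with hg
  have h1 : ip (LS f) f = ip (LS g) g := by
    rw [hg, map_sub LS, LS_PP, sub_zero, map_sub, ← ip_PP, PP_LS, map_zero, LinearMap.zero_apply,
      sub_zero]
  have h2 := h g _ (nice_SV 10 g) (PP_eq_zero_iff_micro.1 (PP_sub_PP f))
  have h3 : L2L g = ENNReal.ofReal (ip g g) := by
    rw [L2L, ip_self_eq, ofReal_integral_eq_lintegral_ofReal (g.memLp 2 volume).integrable_sq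
      (ae_of_all _ fun x => sq_nonneg _)]
  rw [h3, ← ENNReal.ofReal_mul h0.le, DL_eq_ofReal (nice_SV 10 g),
    ENNReal.ofReal_le_ofReal_iff (by unfold Dis; positivity)] at h2
  rw [h1, ip_LS_self]
  linarith

/-- C7 for the concrete operator, given the trilinear estimate. -/
theorem inv_LS {p : ℕ} (tri : ∃ C : ℝ, 0 < C ∧ ∀ g h f : SV,
      |ip (GsB g h) f| ≤ C * √(nA p h) * √(ip (LS g) g + ip g g) * √(ip (LS f) f))
    (S : SV) (hS : PP S = 0) : ∃ Φ, PP Φ = 0 ∧ LS Φ = S :=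
  Corr.corrector GsB_comm ap_GsB hyd_GsB LS_eq ip_LS_symm gap_LS tri S hS

end Pool.Agent.MP_187b32_an.Gap
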